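import Pool.Agent.Lib.MP_100a6c_lc.IfaceC

/-!
# Module PA: `GMP` implies that the power set of `κ` has at least `κ⁺⁺` elements
-/

universe u

open Cardinal

namespace Pool.Agent.Lib.MP_100a6c_lc.H41

/-- The rule used for module PA. -/
def rule (I B K : Type u) (c : Cardinal.{u}) : List (Om I B K) → Set (Om I B K)
  | [] => Set.range Om.idx
  | [Om.sub z] => {x | #z ≤ c ∧ ∃ w : Set I, w ⊆ z ∧ x = Om.sub w}
  | _ => ∅

theorem card_rule {I B K : Type u} {c : Cardinal.{u}} (hc : #I = Order.succ c)
    (h2 : (2 : Cardinal.{u}) ^ c ≤ Order.succ c) (l : List (Om I B K)) :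
    #(rule I B K c l) ≤ Order.succ c := by
  match l with
  | [] => exact (mk_range_le).trans hc.le
  | [Om.sub z] =>
    by_cases hz : #z ≤ c
    · have : rule I B K c [Om.sub z] ⊆ Set.range (fun w : Set z => (Om.sub (Subtype.val '' w) : Om I B K)) := by
        rintro x ⟨-, w, hw, rfl⟩
        refine ⟨{i | (i : I) ∈ w}, ?_⟩
        have : Subtype.val '' {i : z | (i : I) ∈ w} = w := by
          ext i
          constructor
          · rintro ⟨j, hj, rfl⟩
            exact hj
          · intro hi
            exact ⟨⟨i, hw hi⟩, hi, rfl⟩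
        simp only [this]
      refine (mk_le_mk_of_subset this).trans (mk_range_le.trans ?_)
      rw [mk_set]
      exact (power_le_power_left two_ne_zero hz).trans h2
    · have : rule I B K c [Om.sub z] = ∅ := by
        ext x
        simp [rule, hz]
      rw [this]
      simp
  | [Om.idx _] => simp [rule]
  | [Om.fam _] => simp [rule]
  | [Om.fn _] => simp [rule]
  | [Om.lab _] => simp [rule]
  | _ :: _ :: _ => simp [rule]

/-- PA. -/
theorem pa (hG : GSStatement.{u}) : PAStatement.{u} := by
  intro κ hstd hgmp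
  set c := κ.card with hcdef
  by_contra hlt
  have h2 : (2 : Cardinal.{u}) ^ c ≤ Order.succ c := Order.lt_succ_iff.1 (not_le.1 hlt)
  let I : Type u := (Order.succ c).out
  let K : Type u := c.out
  have hI : #I = Order.succ c := Cardinal.mk_out _
  have hK : #K = κ.card := Cardinal.mk_out _
  obtain ⟨M, hM, hR⟩ := hG κ hstd hgmp I PUnit K hK (rule I PUnit K c)
    (card_rule hI h2)
  have hidx : ∀ i : I, Om.idx i ∈ M := fun i => hR [] (by simp) ⟨i, rfl⟩
  have hsub : ∀ D : Set I, Om.sub D ∈ M := by
    intro D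
    obtain ⟨e, he, hD⟩ := hM.guess D (fun z hz hzM =>
      hR [Om.sub z] (by simpa using hzM) ⟨hz, D ∩ z, Set.inter_subset_right, rfl⟩)
    have : D = e := Set.ext fun i => hD i (hidx i)
    rwa [this]
  have hinj : Function.Injective (fun D : Set I => (⟨Om.sub D, hsub D⟩ : M)) := by
    intro D D' h
    simpa using congrArg Subtype.val h
  have h3 : #(Set I) ≤ #M := mk_le_of_injective hinj
  rw [mk_set, hI] at h3
  exact absurd (h3.trans hM.size) (not_le.2 (cantor _))

end Pool.Agent.Lib.MP_100a6c_lc.H41
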